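import Pool.Agent.H625R2.HypFin

/-!
# Recognising unit ball graphs in hyperbolic space `ℍ^d` is `∃ℝ`-complete for every fixed `d ≥ 3`

The hardness proof goes through straight-line programs with increasing values (Shor's normal
form), constructible patterns of points and lines, strict sign matrices (every element of a
pattern is replaced by four perturbed copies), a lifting of sign matrices to higher dimension, and
finally a graph: the rows of the sign matrix are points near the origin, every column is a pair of
points on opposite sides, and the difference of the two points of a column, in the Lorentz space
`ℝ^(1,d)`, is the hyperplane of the column.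
-/

namespace Pool.Agent.Results.MP_485bb6_lc.HypUnitBallComplete

open Pool.Agent.NPC Pool.Agent.NPC.ER Pool.Agent.NPC.ER.Pat

/-- For every fixed `d ≥ 3` the decision problem `UBG(ℍ^d)` is `∃ℝ`-complete under polynomial-time
many-one reductions. -/
theorem result : ∀ d : ℕ, 3 ≤ d → ERComplete (UBGH d) :=
  fun _ hd => hyp_complete (by omega)

end Pool.Agent.Results.MP_485bb6_lc.HypUnitBallComplete
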